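import Pool.Agent.Run7.h843.F3
import Pool.Agent.Run7.h843.V6
import Pool.Agent.Run7.h26.CN.Br

/-!
# The 2-primary parts of the Tate-Shafarevich groups of the congruent number curves of the sums of
# two odd squares

Let `N = u² + v²` with `u`, `v` odd integers, and `E_N : y² = x³ - N² x`.
* `Criterion N`: if `2 d e` is the squarefree part of `N`, `2 e` is a square modulo each prime divisor
  of `d` and `d` is a square modulo each prime divisor of `e`, then `d = 1`.
* `E_N(ℚ)` is finite and `Ш(E_N/ℚ)[2^∞] = 0` if and only if `N` satisfies the criterion.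
* If `N` satisfies the criterion, then the only rational points on `E_N` are the four points killed by
  two, and the `L`-function of `E_N` is entire and not zero at `1` (hence `Ш(E_N/ℚ)` is finite by the
  theorem of Rubin; this is not part of the formal statement).
* Let `c = ∏_{i ≥ 0} (1 - 2^{-(2i+1)}) = 0.4194...`. Among all pairs `(u, v)` of odd integers, ordered
  by `u² + v²`, exactly the proportion `c` has `E_N(ℚ)` finite and `Ш(E_N/ℚ)[2^∞] = 0`.

The proof:
* the locally trivial cocycles with values in the points killed by two are bounded by the classes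
  which satisfy the local conditions of the two isogenies of degree two with kernel `(0, 0)`
  (`Pool/Agent/Y682`); the local conditions over all completions of `ℚ` are computed in
  `Run7/h843/S1` to `S7`: at the primes dividing `N` exactly an odd number of times the classes are
  `1` and `N` up to squares, at the other odd primes they are units up to squares, and at `2` and
  at infinity the spurious classes are excluded;
* conversely a vector in the kernel of the matrix gives a quadratic character `χ` such that the cocycle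
  `χ · (0, 0)` is locally trivial everywhere and not a coboundary (`Run7/h843/V1` to `V6`, on the base
  of `Pool/Agent/Y698/SG`, `Y587/SG`, `Y79/SG`, `Y945/SG`, `Y542/SGT`);
* the `L`-function: the recursion for the algebraic parts of the central values of the Hecke
  `L`-functions with the imprimitive Eisenstein values over `ℚ(i)`, which gives `L(E_N, 1) ≠ 0`
  if the matrix is not singular (`Run7/h26/CN`);
* the weighted count over pairs (`Run7/h843/C1` to `C9`, `F1` to `F3`, on the base of `Run7/h238`).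
-/

set_option autoImplicit false

open Filter Topology

namespace Pool.Agent.Results.MP_e23604_nt.ShaSumsOfTwoOddSquares

/-- the curve `y² = x³ - N² x` over `ℚ` -/
def E (N : ℕ) : WeierstrassCurve ℚ := { a₁ := 0, a₂ := 0, a₃ := 0, a₄ := -(N : ℚ) ^ 2, a₆ := 0 }

/-- the 2-primary part of the Tate-Shafarevich group of `E_N` is zero -/
def ShaTwoZero (N : ℕ) : Prop :=
  ∀ (n : ℕ) (x : Pool.Agent.TH841.NF.D.Sha (E N)), 2 ^ n • x = 0 → x = 0

/-- the only rational points on `E_N` are the points killed by two: the point at infinity and the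
points with `y = 0` -/
def OnlyTwoTorsion (N : ℕ) : Prop := ∀ x y : ℚ, y ^ 2 = x ^ 3 - (N : ℚ) ^ 2 * x → y = 0

open Classical in
/-- the `L`-function of `y² = x³ + a x + b` is entire and not zero at `1`: the incomplete Euler product
over the primes `p ∤ 2Δ` extends to an entire function `F` with `F(1) ≠ 0` -/
def NonzeroL (a b : ℤ) : Prop :=
  ∃ F : ℂ → ℂ, Differentiable ℂ F ∧ F 1 ≠ 0 ∧
    ∀ s : ℂ, (3 : ℝ) / 2 < s.re →
      HasProd
        (fun p : ℕ =>
          if p.Prime ∧ ¬ ((p : ℤ) ∣ 2 * (-4 * a ^ 3 - 27 * b ^ 2)) then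
            (1 - ((p : ℂ) - (Nat.card {q : ZMod p × ZMod p //
                q.2 ^ 2 = q.1 ^ 3 + (a : ZMod p) * q.1 + (b : ZMod p)} : ℂ))
                * (p : ℂ) ^ (-s) + (p : ℂ) ^ (1 - 2 * s))⁻¹
          else 1)
        (F s)

/-- `E_N(ℚ)` is finite and `Ш(E_N/ℚ)[2^∞] = 0` -/
structure Trivial (N : ℕ) : Prop where
  finite : Finite (E N).toAffine.Point
  sha : ShaTwoZero N

/-- the squarefree part of `N`: the product of the primes whose exponent in `N` is odd -/
def sqfreePart (N : ℕ) : ℕ := ∏ p ∈ N.primeFactors.filter fun p => Odd (N.factorization p), p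

/-- The criterion: if `2 d e` is the squarefree part of `N`, `2 e` is a square modulo each prime divisor
of `d` and `d` is a square modulo each prime divisor of `e`, then `d = 1`. -/
def Criterion (N : ℕ) : Prop := ∀ d e : ℕ, 2 * (d * e) = sqfreePart N →
  (∀ p : ℕ, p.Prime → p ∣ d → IsSquare ((2 * e : ℕ) : ZMod p)) →
  (∀ p : ℕ, p.Prime → p ∣ e → IsSquare ((d : ℕ) : ZMod p)) → d = 1

/-- the number of the pairs `(u, v)` of odd integers with `u² + v² ≤ X` such that `u² + v²` has the
property `Q` -/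
noncomputable def num (Q : ℕ → Prop) (X : ℕ) : ℕ :=
  Nat.card {v : ℤ × ℤ // Odd v.1 ∧ Odd v.2 ∧ v.1 ^ 2 + v.2 ^ 2 ≤ (X : ℤ) ∧
    Q (v.1 ^ 2 + v.2 ^ 2).toNat}

/-- the constant `0.4194...` -/
noncomputable def c : ℝ := ∏' i : ℕ, (1 - (1 / 2 : ℝ) ^ (2 * i + 1))

section proof

open Run7.h238.Pairs Run7.h843.Fin
open Run7.h843.Cnt (Gd6)

theorem ana : Run7.h843.Fin.Ana := by
  intro m hm h1 hk
  exact Run7.h26.CN.Lfun m hm h1 hk

theorem toNat_eq (v : ℤ × ℤ) : (v.1 ^ 2 + v.2 ^ 2).toNat = nm v := by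
  rw [← Run7.h238.Half.nm_int, Int.toNat_natCast]

theorem le_iff (v : ℤ × ℤ) (X : ℕ) : v.1 ^ 2 + v.2 ^ 2 ≤ (X : ℤ) ↔ v ∈ Bx X := by
  rw [mem_Bx, ← Run7.h238.Half.nm_int]
  exact Nat.cast_le

open Classical in
theorem num_eq (Q : ℕ → Prop) (X : ℕ) : num Q X = ((UX X).filter fun v => Q (nm v)).card := by
  unfold num
  refine Nat.subtype_card _ fun v => ?_
  unfold UX
  rw [Finset.mem_filter, Finset.mem_filter, le_iff, toNat_eq]
  tauto

open Classical in
theorem num_mono {Q Q' : ℕ → Prop} {X : ℕ} (h : ∀ v ∈ UX X, Q (nm v) → Q' (nm v)) :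
    num Q X ≤ num Q' X := by
  rw [num_eq, num_eq]
  refine Finset.card_le_card fun v hv => ?_
  rw [Finset.mem_filter] at hv ⊢
  exact ⟨hv.1, h v hv.1 hv.2⟩

/-- the half of the norm -/
theorem half_data {v : ℤ × ℤ} (h1 : Odd v.1) (h2 : Odd v.2) :
    ∃ w : ℤ × ℤ, nm v = 2 * nm w ∧ nm w % 2 = 1 := by
  rw [Int.odd_iff] at h1 h2
  have h8 : Run7.h238.Half.rho ((v.1 + v.2) / 2, (v.2 - v.1) / 2) = v := by
    unfold Run7.h238.Half.rho
    exact Prod.ext (by simp only; omega) (by simp only; omega)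
  have h9 := Run7.h238.Half.nm_rho ((v.1 + v.2) / 2, (v.2 - v.1) / 2)
  rw [h8] at h9
  refine ⟨((v.1 + v.2) / 2, (v.2 - v.1) / 2), h9, ?_⟩
  obtain ⟨k, hk⟩ : ∃ k, v.1 = 2 * k + 1 := ⟨v.1 / 2, by omega⟩
  obtain ⟨l, hl⟩ : ∃ l, v.2 = 2 * l + 1 := ⟨v.2 / 2, by omega⟩
  have h10 := Run7.h238.Half.nm_int ((v.1 + v.2) / 2, (v.2 - v.1) / 2)
  have e1 : (v.1 + v.2) / 2 = k + l + 1 := by omega
  have e2 : (v.2 - v.1) / 2 = l - k := by omega
  simp only at h10
  rw [e1, e2] at h10
  have e3 : (k + l + 1) ^ 2 + (l - k) ^ 2 = 2 * (k ^ 2 + l ^ 2 + k + l) + 1 := by ring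
  rw [e3] at h10
  rw [e1, e2]
  omega

theorem sq_part {n : ℕ} (h : n % 2 = 1) : sqfreePart (2 * n) = 2 * sf n := by
  have e : sqfreePart (2 * n) = ∏ p ∈ oddP (2 * n), p := rfl
  rw [e, (oddP_two h).1, Finset.prod_insert (oddP_two h).2]
  rfl

theorem crit_iff {v : ℤ × ℤ} (h : nm v % 2 = 1) : Criterion (2 * nm v) ↔ Gd6 (oddP (nm v)) := by
  have h0 : nm v ≠ 0 := by omega
  have hok := okn h0 (oddP_two h).2
  rw [← sf_pf, cri_iff sf_sq (four hok)]
  unfold Criterion Cri
  rw [sq_part h]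
  constructor
  · intro hc d e hde
    exact hc d e (by rw [hde])
  · intro hc d e hde
    exact hc d e (by omega)

theorem trivial_iff {v : ℤ × ℤ} (h : nm v % 2 = 1) : Trivial (2 * nm v) ↔ Criterion (2 * nm v) := by
  have h0 : nm v ≠ 0 := by omega
  have hok := okn h0 (oddP_two h).2
  rw [crit_iff h, ← Run7.h843.Conv.iffE hok (W := E (2 * nm v)) (by
    unfold E
    push_cast
    rfl)]
  exact ⟨fun h => ⟨h.finite, h.sha⟩, fun h => ⟨h.1, h.2⟩⟩

theorem more {v : ℤ × ℤ} (h : nm v % 2 = 1) (hc : Criterion (2 * nm v)) :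
    OnlyTwoTorsion (2 * nm v) ∧ NonzeroL (-((2 * nm v : ℕ) : ℤ) ^ 2) 0 := by
  have h0 : nm v ≠ 0 := by omega
  have hok := okn h0 (oddP_two h).2
  rw [crit_iff h] at hc
  refine ⟨?_, ?_⟩
  · intro x y hxy
    push_cast at hxy
    exact no_points_n hok hc hxy
  · obtain ⟨F, hF, hP, ho, -⟩ := rank_n ana hok hc
    have e : -((2 * nm v : ℕ) : ℤ) ^ 2 = -4 * ((nm v : ℕ) : ℤ) ^ 2 := by
      push_cast
      ring
    rw [e]
    refine ⟨F, hF, (hF.analyticAt 1).analyticOrderAt_eq_zero.1 ho, fun s hs => ?_⟩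
    refine (congrArg (fun g => HasProd g (F s)) (funext fun p => ?_)).mp (hP s hs)
    congr

open Classical in
theorem good_tendsto : Tendsto (fun X : ℕ => (num Criterion X : ℝ) / X) atTop
    (𝓝 (1 / 4 * Run7.h238.Disc.ar * c)) := by
  have h1 := tend_div (OX_of (G := Gd6) CX_good) (k := 2) two_ne_zero
  have e : 3 / 4 * (2 / 3 * Run7.h238.Disc.ar * Pool.Agent.Y703.CQ.c2) / ((2 : ℕ) : ℝ) =
      1 / 4 * Run7.h238.Disc.ar * c := by
    have : Pool.Agent.Y703.CQ.c2 = c := rfl
    rw [this]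
    push_cast
    ring
  rw [e] at h1
  refine h1.congr fun X => ?_
  rw [num_eq, UX_card]
  congr 3
  refine Finset.filter_congr fun v hv => ?_
  unfold OX at hv
  rw [Finset.mem_filter] at hv
  exact (crit_iff hv.2).symm

open Classical in
theorem all_tendsto : Tendsto (fun X : ℕ => (num (fun _ => True) X : ℝ) / X) atTop
    (𝓝 (1 / 4 * Run7.h238.Disc.ar)) := by
  have h1 := tend_div (OX_of (G := fun _ => True) (l := 2 / 3 * Run7.h238.Disc.ar) (by
    refine Run7.h238.Half.CX_tendsto.congr fun X => ?_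
    congr 3
    ext v
    simp)) (k := 2) two_ne_zero
  have e : 3 / 4 * (2 / 3 * Run7.h238.Disc.ar) / ((2 : ℕ) : ℝ) = 1 / 4 * Run7.h238.Disc.ar := by
    push_cast
    ring
  rw [e] at h1
  refine h1.congr fun X => ?_
  rw [num_eq]
  have h2 := (UX_card (fun _ => True) X).symm
  exact congrArg (fun n : ℕ => (n : ℝ) / X) h2

end proof

/-- **The 2-primary parts of the Tate-Shafarevich groups of the congruent number curves of the sums of
two odd squares.** -/
theorem result :
    (∀ u v : ℤ, Odd u → Odd v →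
      (Trivial (u ^ 2 + v ^ 2).toNat ↔ Criterion (u ^ 2 + v ^ 2).toNat)) ∧
    (∀ u v : ℤ, Odd u → Odd v → Criterion (u ^ 2 + v ^ 2).toNat →
      OnlyTwoTorsion (u ^ 2 + v ^ 2).toNat ∧ NonzeroL (-(((u ^ 2 + v ^ 2).toNat : ℕ) : ℤ) ^ 2) 0) ∧
    Tendsto (fun X : ℕ => (num Trivial X : ℝ) / (num (fun _ => True) X : ℝ)) atTop (𝓝 c) ∧
    0.4194 < c ∧ c < 0.4195 := by
  have hc1 : 0.4194 < c := Pool.Agent.Y948.CQ.t_C2.2.2.2.1
  have hc2 : c < 0.4195 := Pool.Agent.Y948.CQ.t_C2.2.2.2.2
  have har := Run7.h238.Disc.ar_pos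
  have hg := good_tendsto
  have hA := all_tendsto
  have h1 : ∀ u v : ℤ, Odd u → Odd v →
      (Trivial (u ^ 2 + v ^ 2).toNat ↔ Criterion (u ^ 2 + v ^ 2).toNat) := by
    intro u v hu hv
    obtain ⟨w, h2, h3⟩ := half_data (v := (u, v)) hu hv
    have h4 := toNat_eq (u, v)
    simp only at h4
    rw [h4, h2]
    exact trivial_iff h3
  have h1' : ∀ u v : ℤ, Odd u → Odd v → Criterion (u ^ 2 + v ^ 2).toNat →
      OnlyTwoTorsion (u ^ 2 + v ^ 2).toNat ∧
        NonzeroL (-(((u ^ 2 + v ^ 2).toNat : ℕ) : ℤ) ^ 2) 0 := by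
    intro u v hu hv hc
    obtain ⟨w, h2, h3⟩ := half_data (v := (u, v)) hu hv
    have h4 := toNat_eq (u, v)
    simp only at h4
    rw [h4, h2] at hc ⊢
    exact more h3 hc
  have heq : ∀ X : ℕ, num Trivial X = num Criterion X := by
    intro X
    refine le_antisymm (num_mono fun v hv hc => ?_) (num_mono fun v hv hc => ?_)
    · unfold Run7.h843.Fin.UX at hv
      rw [Finset.mem_filter] at hv
      have h11 := (h1 v.1 v.2 hv.2.1 hv.2.2).1 (by rw [toNat_eq]; exact hc)
      rw [toNat_eq] at h11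
      exact h11
    · unfold Run7.h843.Fin.UX at hv
      rw [Finset.mem_filter] at hv
      have h11 := (h1 v.1 v.2 hv.2.1 hv.2.2).2 (by rw [toNat_eq]; exact hc)
      rw [toNat_eq] at h11
      exact h11
  refine ⟨h1, h1', ?_, hc1, hc2⟩
  have h3 : (1 / 4 * Run7.h238.Disc.ar : ℝ) ≠ 0 := by positivity
  have h4 := hg.div hA h3
  have e : 1 / 4 * Run7.h238.Disc.ar * c / (1 / 4 * Run7.h238.Disc.ar) = c := by
    field_simp
  rw [e] at h4
  refine h4.congr' ?_
  filter_upwards [eventually_ge_atTop 1] with X hX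
  have hX0 : (X : ℝ) ≠ 0 := by
    have : (0 : ℝ) < X := by exact_mod_cast hX
    exact this.ne'
  simp only [Pi.div_apply]
  rw [heq]
  exact div_div_div_cancel_right₀ hX0 _ _

end Pool.Agent.Results.MP_e23604_nt.ShaSumsOfTwoOddSquares
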